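import Mathlib

/-!
Project LT (MP_83fd13_an, Schiffer's conjecture): domains with an ENTIRE Riemann map.

`g` is analytic and `2πi`-periodic in `Re ζ > t₀` (a function of `z = e^{-ζ}` with an isolated
singularity at `z = 0`), `κ > 0`, and all the integrals
`∫ exp(s e^{-ζ} - κ g(ζ) / s) e^{-ζ} dζ` over a vertical period vanish (`s ≠ 0`). Then
`|g(ζ)| ≤ C e^{Re ζ}`.

The statements (`def S_X : Prop`) are the building blocks of the proof (Wiman-Valiron method and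
saddle point method).
-/

set_option autoImplicit false

open MeasureTheory Complex Metric Set Filter Topology
open scoped Real ComplexConjugate

namespace Pool.Agent.Y251.LT

/-- `g` is analytic and `2πi`-periodic in the half-plane `t₀ < Re ζ` -/
structure Per (g : ℂ → ℂ) (t₀ : ℝ) : Prop where
  diff : DifferentiableOn ℂ g {ζ : ℂ | t₀ < ζ.re}
  per : ∀ ζ : ℂ, t₀ < ζ.re → g (ζ + 2 * (π : ℂ) * I) = g ζ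

/-- the function `-g'(ζ) e^{-ζ}` -/
noncomputable def hh (g : ℂ → ℂ) (ζ : ℂ) : ℂ := -(deriv g ζ * Complex.exp (-ζ))

/-- aligned points: `-g'(ζ) e^{-ζ}` is real and nonnegative -/
def Al (g : ℂ → ℂ) (ζ : ℂ) : Prop := (hh g ζ).im = 0 ∧ 0 ≤ (hh g ζ).re

/-- the contour integrals vanish -/
def Van (g : ℂ → ℂ) (t₀ κ : ℝ) : Prop :=
  ∀ s : ℂ, s ≠ 0 → ∀ t a : ℝ, t₀ < t →
    ∫ y in a..(a + 2 * π), Complex.exp (s * Complex.exp (-((t : ℂ) + (y : ℂ) * I)) -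
      (κ : ℂ) * g ((t : ℂ) + (y : ℂ) * I) / s) * Complex.exp (-((t : ℂ) + (y : ℂ) * I)) = 0

/-- the local function `p`, where `g (ζ₁ + u) = g ζ₁ * e^{q^8 u} (1 + p u)` -/
structure Loc (q : ℝ) (p : ℂ → ℂ) : Prop where
  diff : DifferentiableOn ℂ p (ball 0 (1 / q ^ 6))
  zero : p 0 = 0
  b0 : ∀ u : ℂ, ‖u‖ ≤ 1 / (2 * q ^ 6) → ‖p u‖ ≤ 16 * q ^ 3 * ‖u‖
  b1 : ∀ u : ℂ, ‖u‖ ≤ 1 / (4 * q ^ 6) → ‖deriv p u‖ ≤ 32 * q ^ 3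
  b2 : ∀ u : ℂ, ‖u‖ ≤ 1 / (8 * q ^ 6) → ‖deriv (deriv p) u‖ ≤ 256 * q ^ 9

/-- the normalised value of `-g'(ζ) e^{-ζ}` at `ζ = ζ₁ + i y` -/
noncomputable def wv (q : ℝ) (p : ℂ → ℂ) (y : ℝ) : ℂ :=
  Complex.exp ((((q ^ 8 - 1) * y : ℝ) : ℂ) * I) *
    ((q : ℂ) ^ 8 * (1 + p ((y : ℂ) * I)) + deriv p ((y : ℂ) * I)) / ((q : ℂ) ^ 8 + deriv p 0)

/-- the second term of the exponent near the saddle point -/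
noncomputable def TT (q X : ℝ) (p : ℂ → ℂ) (y : ℝ) : ℂ :=
  (X : ℂ) / ((q : ℂ) ^ 8 + deriv p 0) *
    (Complex.exp (((q ^ 8 * y : ℝ) : ℂ) * I) * (1 + p ((y : ℂ) * I)))

/-- BC: the logarithm of the maximum modulus on vertical lines is convex (Hadamard) -/
def S_BC : Prop :=
  ∀ (g : ℂ → ℂ) (t₀ : ℝ), Per g t₀ → (∃ ζ : ℂ, t₀ < ζ.re ∧ g ζ ≠ 0) →
    ∃ B : ℝ → ℝ, ConvexOn ℝ (Ioi t₀) B ∧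
      (∀ ζ : ℂ, t₀ < ζ.re → ‖g ζ‖ ≤ Real.exp (B ζ.re)) ∧
      ∀ t : ℝ, t₀ < t → ∃ y : ℝ, ‖g ((t : ℂ) + (y : ℂ) * I)‖ = Real.exp (B t)

/-- GR: the growth lemma for convex functions -/
def S_GR : Prop :=
  ∀ (B : ℝ → ℝ) (t₀ : ℝ), ConvexOn ℝ (Ioi t₀) B →
    (∀ C N : ℝ, ∃ t : ℝ, t₀ + 1 < t ∧ C + N * t < B t) →
    ∀ q₀ : ℝ, ∃ t q : ℝ, t₀ + 1 < t ∧ q₀ ≤ q ∧ 1 ≤ q ∧ q ^ 100 ≤ Real.exp (B t - t) ∧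
      ∀ h : ℝ, |h| ≤ 1 / q ^ 6 → B (t + h) ≤ B t + q ^ 8 * h + 1 / q ^ 3

/-- LOC: the local form of Wiman-Valiron -/
def S_LOC : Prop :=
  ∀ (g : ℂ → ℂ) (ζ₀ : ℂ) (q : ℝ), 10 ≤ q → DifferentiableOn ℂ g (ball ζ₀ (1 / q ^ 6)) →
    g ζ₀ ≠ 0 →
    (∀ u : ℂ, ‖u‖ < 1 / q ^ 6 →
      ‖g (ζ₀ + u)‖ ≤ ‖g ζ₀‖ * Real.exp (q ^ 8 * u.re + 2 / q ^ 3)) →
    ∃ p : ℂ → ℂ, Loc q p ∧
      ∀ u : ℂ, ‖u‖ < 1 / q ^ 6 → g (ζ₀ + u) = g ζ₀ * (Complex.exp ((q : ℂ) ^ 8 * u) * (1 + p u))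

/-- ALN: existence of aligned points -/
def S_ALN : Prop :=
  ∀ (r : ℝ → ℂ) (h₀ : ℂ) (A a : ℝ), 0 < A → h₀ ≠ 0 →
    ContinuousOn r (Icc (a - 4 / A) (a + 4 / A)) →
    (∀ y ∈ Icc (a - 4 / A) (a + 4 / A), ‖r y‖ ≤ 1 / 10) →
    ∃ y : ℝ, |y - a| ≤ 4 / A ∧
      (h₀ * (Complex.exp (((A * y : ℝ) : ℂ) * I) * (1 + r y))).im = 0 ∧
      0 < (h₀ * (Complex.exp (((A * y : ℝ) : ℂ) * I) * (1 + r y))).re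

/-- CH: the choice of the saddle point -/
def S_CH : Prop :=
  ∀ (g : ℂ → ℂ) (B : ℝ → ℝ) (t₀ t q : ℝ), Per g t₀ → t₀ + 1 < t → 100 ≤ q →
    (∀ ζ : ℂ, t₀ < ζ.re → ‖g ζ‖ ≤ Real.exp (B ζ.re)) →
    (∃ y : ℝ, ‖g ((t : ℂ) + (y : ℂ) * I)‖ = Real.exp (B t)) →
    (∀ h : ℝ, |h| ≤ 1 / q ^ 6 → B (t + h) ≤ B t + q ^ 8 * h + 1 / q ^ 3) →
    ∃ ζ₁ : ℂ, ζ₁.re = t ∧ Al g ζ₁ ∧ Real.exp (B t) * (1 - 100 / q ^ 5) ≤ ‖g ζ₁‖ ∧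
      ∀ ζ₂ : ℂ, ζ₂.re = t → Al g ζ₂ → ‖g ζ₂‖ ≤ ‖g ζ₁‖

/-- NEAR: domination at points close to the saddle point -/
def S_NEAR : Prop :=
  ∀ (q X : ℝ) (p : ℂ → ℂ), 10 ^ 8 ≤ q → 0 < X → Loc q p →
    (∀ y : ℝ, |y| ≤ 1 / (8 * q ^ 6) → (wv q p y).im = 0 → 0 ≤ (wv q p y).re →
      ‖1 + p ((y : ℂ) * I)‖ ≤ 1) →
    ∀ y : ℝ, |y| ≤ 1 / (16 * q ^ 6) →
      (TT q X p y).re ≤ (TT q X p 0).re + 10 ^ 5 * X / q ^ 18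

/-- CEN: the exponent at the saddle point -/
def S_CEN : Prop :=
  ∀ (q X : ℝ) (p : ℂ → ℂ), 10 ^ 8 ≤ q → 0 < X → Loc q p →
    ∀ y : ℝ, |y| ≤ 1 / (4 * q ^ 8) →
      ‖((X : ℂ) * Complex.exp (-((y : ℂ) * I)) + TT q X p y) - ((X : ℂ) + TT q X p 0) +
        ((X * q ^ 8 / 2 * y ^ 2 : ℝ) : ℂ)‖ ≤ 15 / 100 * (X * q ^ 8 * y ^ 2)

/-- LAP: Laplace's method -/
def S_LAP : Prop :=
  ∀ (A a : ℝ) (E : ℝ → ℂ), 0 < A → 0 < a → a ≤ 1 / 10 → 100 ≤ A * a ^ 2 →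
    ContinuousOn E (Icc (-a) a) →
    (∀ y ∈ Icc (-a) a, ‖E y + ((A / 2 * y ^ 2 : ℝ) : ℂ)‖ ≤ 15 / 100 * (A * y ^ 2)) →
    1 / (2 * Real.sqrt A) ≤
      ‖∫ y in (-a)..a, Complex.exp (E y) * Complex.exp (-((y : ℂ) * I))‖

/-- SAD: the saddle point integral does not vanish -/
def S_SAD : Prop :=
  ∀ (q X : ℝ) (p : ℂ → ℂ) (T : ℝ → ℂ), 10 ^ 8 ≤ q → q ^ 20 ≤ X → Loc q p → Continuous T →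
    (∀ y : ℝ, |y| ≤ 1 / (8 * q ^ 6) → T y = TT q X p y) →
    (∀ y : ℝ, |y| ≤ 1 / (8 * q ^ 6) → (wv q p y).im = 0 → 0 ≤ (wv q p y).re →
      ‖1 + p ((y : ℂ) * I)‖ ≤ 1) →
    (∀ y : ℝ, |y| ≤ π → ‖T y‖ ≤ X / q ^ 8 * (1 + 1000 / q ^ 5)) →
    ∫ y in (-π)..π, Complex.exp ((X : ℂ) * Complex.exp (-((y : ℂ) * I)) + T y) *
      Complex.exp (-((y : ℂ) * I)) ≠ 0

/-- TRA: no essential singularity -/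
def S_TRA : Prop :=
  ∀ (g : ℂ → ℂ) (t₀ κ : ℝ), Per g t₀ → 0 < κ → Van g t₀ κ →
    ∃ C N : ℝ, ∀ ζ : ℂ, t₀ + 1 < ζ.re → ‖g ζ‖ ≤ Real.exp (C + N * ζ.re)

/-- STR: the structure of a pole -/
def S_STR : Prop :=
  ∀ (g : ℂ → ℂ) (t₀ C N : ℝ), Per g t₀ →
    (∀ ζ : ℂ, t₀ + 1 < ζ.re → ‖g ζ‖ ≤ Real.exp (C + N * ζ.re)) →
    (∃ C' : ℝ, ∀ ζ : ℂ, t₀ + 1 < ζ.re → ‖g ζ‖ ≤ C' * Real.exp ζ.re) ∨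
    ∃ (m : ℕ) (c : ℂ) (R : ℂ → ℂ), 2 ≤ m ∧ c ≠ 0 ∧
      DifferentiableOn ℂ R (ball 0 (Real.exp (-t₀))) ∧
      ∀ ζ : ℂ, t₀ < ζ.re →
        g ζ = Complex.exp ((m : ℂ) * ζ) * (c + Complex.exp (-ζ) * R (Complex.exp (-ζ)))

/-- POL: no pole of order `≥ 2` -/
def S_POL : Prop :=
  ∀ (g : ℂ → ℂ) (t₀ κ : ℝ) (m : ℕ) (c : ℂ) (R : ℂ → ℂ), 0 < κ → 2 ≤ m → c ≠ 0 →
    DifferentiableOn ℂ R (ball 0 (Real.exp (-t₀))) →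
    (∀ ζ : ℂ, t₀ < ζ.re →
      g ζ = Complex.exp ((m : ℂ) * ζ) * (c + Complex.exp (-ζ) * R (Complex.exp (-ζ)))) →
    ¬ Van g t₀ κ

/-- the asymptotic theorem -/
def S_MAIN : Prop :=
  ∀ (g : ℂ → ℂ) (t₀ κ : ℝ), Per g t₀ → 0 < κ → Van g t₀ κ →
    ∃ C : ℝ, ∀ ζ : ℂ, t₀ + 1 < ζ.re → ‖g ζ‖ ≤ C * Real.exp ζ.re

theorem main_of (h1 : S_TRA) (h2 : S_STR) (h3 : S_POL) : S_MAIN := by
  intro g t₀ κ hg hκ hv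
  obtain ⟨C, N, h⟩ := h1 g t₀ κ hg hκ hv
  rcases h2 g t₀ C N hg h with h | ⟨m, c, R, hm, hc, hR, hgR⟩
  · exact h
  · exact absurd hv (h3 g t₀ κ m c R hκ hm hc hR hgR)

/-- INV: the local inverse of a conformal map -/
def S_INV : Prop :=
  ∀ (φ : ℂ → ℂ), DifferentiableOn ℂ φ (ball 0 1) → deriv φ 0 ≠ 0 →
    ∃ (ρ : ℝ) (l : ℂ → ℂ), 0 < ρ ∧ DifferentiableOn ℂ l (ball 0 ρ) ∧
      ∀ z ∈ ball (0 : ℂ) ρ, ‖z * Complex.exp (l z)‖ < 1 ∧ φ (z * Complex.exp (l z)) = φ 0 + z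

/-- AFF: the final step -/
def S_AFF : Prop :=
  ∀ (φ l : ℂ → ℂ) (ρ C : ℝ), Differentiable ℂ φ → InjOn φ (ball 0 1) → 0 < ρ →
    DifferentiableOn ℂ l (ball 0 ρ) →
    (∀ z ∈ ball (0 : ℂ) ρ,
      ‖z * Complex.exp (l z)‖ < 1 ∧ φ (z * Complex.exp (l z)) = φ 0 + z) →
    (∀ ζ : ℂ, -Real.log ρ + 1 < ζ.re →
      ‖conj (φ (conj (Complex.exp (-(-ζ + l (Complex.exp (-ζ)))))))‖ ≤ C * Real.exp ζ.re) →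
    ∃ b : ℂ, ∀ w : ℂ, φ w = φ 0 + b * w

end Pool.Agent.Y251.LT
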